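import Pool.Agent.R801.EN.Count

/-!
# Density of the quotients
-/

namespace Pool.Agent.R801.EN

open Filter Topology

/-- The normalised number of endomorphisms of the second class. -/
noncomputable def S (a c : ℕ) : ℝ :=
  ∑ j ∈ Finset.range (a + 1), ((a + c).choose (c + j) : ℝ) / (j.factorial : ℝ)

lemma sum_eq_S (a c : ℕ) :
    ((∑ k ∈ Finset.range (a + c + 1), (a + c).choose k * a.descFactorial k : ℕ) : ℝ) =
      (a.factorial : ℝ) * S a c := by
  have h1 : ∑ k ∈ Finset.range (a + c + 1), (a + c).choose k * a.descFactorial k =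
      ∑ k ∈ Finset.range (a + 1), (a + c).choose k * a.descFactorial k := by
    symm
    apply Finset.sum_subset
    · intro k hk
      rw [Finset.mem_range] at hk ⊢
      omega
    · intro k _ hk
      rw [Finset.mem_range, not_lt] at hk
      rw [Nat.descFactorial_of_lt (by omega), mul_zero]
  have h2 := Finset.sum_range_reflect (fun k => (a + c).choose k * a.descFactorial k) (a + 1)
  rw [h1, ← h2]
  unfold S
  push_cast
  rw [Finset.mul_sum]
  apply Finset.sum_congr rfl
  intro j hj
  rw [Finset.mem_range] at hj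
  show ((a + c).choose (a - j) : ℝ) * (a.descFactorial (a - j) : ℝ) = _
  have e2 : (a + c).choose (a - j) = (a + c).choose (c + j) := by
    rw [← Nat.choose_symm (show c + j ≤ a + c by omega)]
    congr 1
    omega
  have e3 : (j.factorial : ℝ) * (a.descFactorial (a - j) : ℝ) = (a.factorial : ℝ) := by
    have := Nat.factorial_mul_descFactorial (show a - j ≤ a by omega)
    have e4 : a - (a - j) = j := by omega
    rw [e4] at this
    exact_mod_cast this
  rw [e2, ← e3]
  have hj0 : (j.factorial : ℝ) ≠ 0 := by exact_mod_cast Nat.factorial_ne_zero j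
  field_simp

lemma q_eq (a : ℕ) {c : ℕ} (hc : 1 ≤ c) :
    q (Gac a c) = 1 / (1 + S a c / (c.factorial : ℝ)) := by
  have ha0 : (a.factorial : ℝ) ≠ 0 := by exact_mod_cast Nat.factorial_ne_zero a
  have hc0 : (c.factorial : ℝ) ≠ 0 := by exact_mod_cast Nat.factorial_ne_zero c
  unfold q
  rw [card_aut, card_End a hc]
  push_cast
  have h := sum_eq_S a c
  push_cast at h
  rw [h]
  have e : (a.factorial : ℝ) * c.factorial + a.factorial * S a c =
      (a.factorial * c.factorial) * (1 + S a c / c.factorial) := by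
    field_simp
  rw [e, div_mul_eq_div_div, div_self (mul_ne_zero ha0 hc0)]

lemma S_nonneg (a c : ℕ) : 0 ≤ S a c := by
  unfold S
  apply Finset.sum_nonneg
  intro j _
  positivity

lemma S_step {m d a : ℕ} (hm : 1 ≤ m) (hc : m ≤ d + 1) (ha : 3 * m ^ 2 * (d + 1) ≤ a) :
    S (a + 1) (d + 1) ≤ (1 + 3 / (m : ℝ)) * S a (d + 1) := by
  have hm0 : (0 : ℝ) < m := by exact_mod_cast hm
  set N := a + (d + 1) with hN
  set u : ℕ → ℝ := fun i => (N.choose (d + 1 + i) : ℝ) / (i.factorial : ℝ) with hu
  have hu0 : ∀ i, 0 ≤ u i := fun i => by simp only [hu]; positivity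
  have hSa : S a (d + 1) = ∑ i ∈ Finset.range (a + 1), u i := rfl
  have hua : u (a + 1) = 0 := by
    simp only [hu]
    rw [Nat.choose_eq_zero_of_lt (by omega)]
    simp
  -- the value at `a + 1`
  have h1 : S (a + 1) (d + 1) =
      S a (d + 1) + ((N.choose d : ℝ) + ∑ i ∈ Finset.range (a + 1), u i / ((i : ℝ) + 1)) := by
    have e1 : S (a + 1) (d + 1) = ∑ j ∈ Finset.range (a + 2),
        ((N.choose (d + j) : ℝ) / (j.factorial : ℝ) + u j) := by
      unfold S
      apply Finset.sum_congr rfl
      intro j _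
      have e2 : a + 1 + (d + 1) = N + 1 := by omega
      have e3 : d + 1 + j = (d + j) + 1 := by omega
      rw [e2]
      simp only [hu]
      rw [e3, Nat.choose_succ_succ]
      push_cast
      rw [add_div]
    rw [e1, Finset.sum_add_distrib, Finset.sum_range_succ u (a + 1), hua, add_zero, ← hSa,
      add_comm]
    congr 1
    rw [Finset.sum_range_succ', add_comm]
    congr 1
    · simp
    · apply Finset.sum_congr rfl
      intro i _
      simp only [hu]
      rw [Nat.factorial_succ]
      have e4 : d + (i + 1) = d + 1 + i := by omega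
      rw [e4]
      push_cast
      have hi0 : (i.factorial : ℝ) ≠ 0 := by exact_mod_cast Nat.factorial_ne_zero i
      field_simp
  -- the first term
  have hmm : m * (d + 1) ≤ a := by nlinarith [sq_nonneg m, Nat.zero_le d]
  have h2 : (N.choose d : ℝ) ≤ u 0 / m := by
    rw [le_div_iff₀ hm0]
    simp only [hu, add_zero, Nat.factorial_zero, Nat.cast_one, div_one]
    have e := Nat.choose_succ_right_eq N d
    have e2 : N - d = a + 1 := by omega
    rw [e2] at e
    have h3 : N.choose d * m * (d + 1) ≤ N.choose (d + 1) * (d + 1) := by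
      rw [e, mul_assoc]
      exact Nat.mul_le_mul_left _ (by omega)
    have h4 : N.choose d * m ≤ N.choose (d + 1) := Nat.le_of_mul_le_mul_right h3 (by omega)
    exact_mod_cast h4
  -- the others
  have h3 : ∀ i ∈ Finset.range (a + 1), u i / ((i : ℝ) + 1) ≤ u i / m + u (i + 1) / m := by
    intro i _
    by_cases him : m ≤ i + 1
    · have e1 : u i / ((i : ℝ) + 1) ≤ u i / m := by
        apply div_le_div_of_nonneg_left (hu0 i) hm0
        exact_mod_cast him
      have e2 : 0 ≤ u (i + 1) / m := div_nonneg (hu0 _) hm0.le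
      linarith
    · push Not at him
      have e1 : u i / ((i : ℝ) + 1) ≤ u i := by
        apply div_le_self (hu0 i)
        have : (0 : ℝ) ≤ i := Nat.cast_nonneg i
        linarith
      have e2 : u i ≤ u (i + 1) / m := by
        rw [le_div_iff₀ hm0]
        simp only [hu]
        rw [Nat.factorial_succ]
        have hi0 : (0 : ℝ) < i.factorial := by exact_mod_cast Nat.factorial_pos i
        have hi1 : (0 : ℝ) < (i : ℝ) + 1 := by positivity
        push_cast
        rw [div_mul_eq_mul_div, div_le_div_iff₀ hi0 (mul_pos hi1 hi0)]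
        have e := Nat.choose_succ_right_eq N (d + 1 + i)
        have e3 : N - (d + 1 + i) = a - i := by omega
        rw [e3] at e
        have hbound : m * (i + 1) * (d + 1 + i + 1) ≤ a - i := by
          have b1 : m * (i + 1) ≤ m ^ 2 := by
            rw [pow_two]; exact Nat.mul_le_mul_left _ (by omega)
          have b2 : d + 1 + i + 1 ≤ 2 * (d + 1) := by omega
          have b3 : m * (i + 1) * (d + 1 + i + 1) ≤ m ^ 2 * (2 * (d + 1)) :=
            Nat.mul_le_mul b1 b2
          have b4 : i ≤ m ^ 2 * (d + 1) := by nlinarith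
          have b5 : 3 * m ^ 2 * (d + 1) = m ^ 2 * (2 * (d + 1)) + m ^ 2 * (d + 1) := by ring
          omega
        have h5 : N.choose (d + 1 + i) * m * (i + 1) * (d + 1 + i + 1) ≤
            N.choose (d + 1 + i + 1) * (d + 1 + i + 1) := by
          rw [e]
          calc N.choose (d + 1 + i) * m * (i + 1) * (d + 1 + i + 1)
              = N.choose (d + 1 + i) * (m * (i + 1) * (d + 1 + i + 1)) := by ring
            _ ≤ _ := Nat.mul_le_mul_left _ hbound
        have h6 : N.choose (d + 1 + i) * m * (i + 1) ≤ N.choose (d + 1 + i + 1) :=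
          Nat.le_of_mul_le_mul_right h5 (by omega)
        have h7 : (N.choose (d + 1 + i) : ℝ) * m * ((i : ℝ) + 1) ≤
            (N.choose (d + 1 + (i + 1)) : ℝ) := by exact_mod_cast h6
        calc (N.choose (d + 1 + i) : ℝ) * m * (((i : ℝ) + 1) * i.factorial)
            = ((N.choose (d + 1 + i) : ℝ) * m * ((i : ℝ) + 1)) * i.factorial := by ring
          _ ≤ _ := mul_le_mul_of_nonneg_right h7 hi0.le
      have e3 : 0 ≤ u i / m := div_nonneg (hu0 _) hm0.le
      linarith
  have h4 : ∑ i ∈ Finset.range (a + 1), u i / ((i : ℝ) + 1) ≤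
      S a (d + 1) / m + (S a (d + 1) - u 0) / m := by
    refine le_trans (Finset.sum_le_sum h3) ?_
    rw [Finset.sum_add_distrib, ← Finset.sum_div, ← Finset.sum_div, ← hSa]
    have e5 : ∑ i ∈ Finset.range (a + 1), u (i + 1) = S a (d + 1) - u 0 := by
      have e6 := Finset.sum_range_succ' u (a + 1)
      rw [Finset.sum_range_succ u (a + 1), hua, add_zero, ← hSa] at e6
      linarith
    rw [e5]
  rw [h1]
  have h5 : (1 + 3 / (m : ℝ)) * S a (d + 1) = S a (d + 1) + (S a (d + 1) / m +
    S a (d + 1) / m + S a (d + 1) / m) := by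
    field_simp
    ring
  have h6 : (S a (d + 1) - u 0) / m = S a (d + 1) / m - u 0 / m := sub_div _ _ _
  have h7 : 0 ≤ S a (d + 1) / m := div_nonneg (S_nonneg _ _) hm0.le
  rw [h5]
  rw [h6] at h4
  linarith

lemma S_le (a c : ℕ) : S a c ≤ 2 ^ (a + c) := by
  have h1 : S a c ≤ ∑ j ∈ Finset.range (a + 1), ((a + c).choose (c + j) : ℝ) := by
    unfold S
    apply Finset.sum_le_sum
    intro j _
    apply div_le_self (Nat.cast_nonneg _)
    exact_mod_cast Nat.factorial_pos j
  refine le_trans h1 ?_
  have h2 := Nat.sum_range_choose (a + c)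
  have h3 : a + c + 1 = c + (a + 1) := by omega
  rw [h3, Finset.sum_range_add] at h2
  have h4 : ∑ j ∈ Finset.range (a + 1), (a + c).choose (c + j) ≤ 2 ^ (a + c) := by omega
  exact_mod_cast h4

lemma choose_ge (a d : ℕ) : a + 1 ≤ (a + (d + 1)).choose (d + 1) := by
  induction d with
  | zero => simp
  | succ d ih =>
    have : a + (d + 1 + 1) = (a + (d + 1)) + 1 := by omega
    rw [this, Nat.choose_succ_succ]
    omega

lemma S_ge (a d : ℕ) : (a : ℝ) ≤ S a (d + 1) := by
  have h1 : ((a + (d + 1)).choose (d + 1 + 0) : ℝ) / ((0 : ℕ).factorial : ℝ) ≤ S a (d + 1) := by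
    unfold S
    exact Finset.single_le_sum (f := fun j =>
      ((a + (d + 1)).choose (d + 1 + j) : ℝ) / (j.factorial : ℝ))
      (fun j _ => by positivity) (Finset.mem_range.mpr (by omega))
  simp only [add_zero, Nat.factorial_zero, Nat.cast_one, div_one] at h1
  have h2 : ((a + 1 : ℕ) : ℝ) ≤ ((a + (d + 1)).choose (d + 1) : ℝ) := by
    exact_mod_cast choose_ge a d
  push_cast at h2
  linarith

/-- Discrete intermediate values. -/
lemma exists_ratio {y : ℝ} (hy : 0 < y) {m : ℕ} (hm : 1 ≤ m) :
    ∃ a c : ℕ, m ≤ c ∧ y ≤ S a c / (c.factorial : ℝ) ∧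
      S a c / (c.factorial : ℝ) ≤ (1 + 3 / (m : ℝ)) * y := by
  classical
  have hm0 : (0 : ℝ) < m := by exact_mod_cast hm
  set B : ℝ := 2 ^ (3 * m ^ 2 + 1) with hB
  have hlim := FloorSemiring.tendsto_pow_div_factorial_atTop B
  have hev : ∀ᶠ c : ℕ in atTop, B ^ c / (c.factorial : ℝ) < y :=
    hlim.eventually (gt_mem_nhds hy)
  obtain ⟨c, hc1, hc2⟩ := (hev.and (eventually_ge_atTop m)).exists
  obtain ⟨d, rfl⟩ : ∃ d, c = d + 1 := ⟨c - 1, by omega⟩
  set f : ℝ := ((d + 1).factorial : ℝ) with hf
  have hf0 : 0 < f := by rw [hf]; exact_mod_cast Nat.factorial_pos (d + 1)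
  have hex : ∃ a, y ≤ S a (d + 1) / f := by
    obtain ⟨a, ha⟩ := exists_nat_ge (y * f)
    refine ⟨a, ?_⟩
    rw [le_div_iff₀ hf0]
    exact le_trans ha (S_ge a d)
  have hsmall : ∀ a, a ≤ 3 * m ^ 2 * (d + 1) → S a (d + 1) / f < y := by
    intro a ha
    refine lt_of_le_of_lt ?_ hc1
    apply div_le_div_of_nonneg_right _ hf0.le
    refine le_trans (S_le _ _) ?_
    rw [hB, ← pow_mul]
    apply pow_le_pow_right₀ (by norm_num)
    have : (3 * m ^ 2 + 1) * (d + 1) = 3 * m ^ 2 * (d + 1) + (d + 1) := by ring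
    omega
  set a := Nat.find hex with ha
  have ha1 : y ≤ S a (d + 1) / f := Nat.find_spec hex
  have ha2 : 3 * m ^ 2 * (d + 1) < a := by
    by_contra h
    push Not at h
    exact absurd (hsmall a h) (not_lt.mpr ha1)
  obtain ⟨a', ha'⟩ : ∃ a', a = a' + 1 := ⟨a - 1, by omega⟩
  have ha3 : S a' (d + 1) / f < y := by
    have := Nat.find_min hex (m := a') (by omega)
    exact not_le.mp this
  refine ⟨a, d + 1, hc2, ha1, ?_⟩
  rw [ha']
  have h1 := S_step hm hc2 (show 3 * m ^ 2 * (d + 1) ≤ a' by omega)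
  have h2 : 0 ≤ 1 + 3 / (m : ℝ) := by positivity
  calc S (a' + 1) (d + 1) / f ≤ ((1 + 3 / (m : ℝ)) * S a' (d + 1)) / f :=
        div_le_div_of_nonneg_right h1 hf0.le
    _ = (1 + 3 / (m : ℝ)) * (S a' (d + 1) / f) := mul_div_assoc _ _ _
    _ ≤ (1 + 3 / (m : ℝ)) * y := mul_le_mul_of_nonneg_left ha3.le h2

lemma exists_graph {l : ℝ} (h0 : 0 ≤ l) (h1 : l ≤ 1) (k : ℕ) :
    ∃ a c : ℕ, k + 1 ≤ c ∧ |q (Gac a c) - l| ≤ 4 / ((k : ℝ) + 1) := by
  set m : ℝ := (k : ℝ) + 1 with hm
  have hm0 : 0 < m := by rw [hm]; positivity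
  set μ : ℝ := (l * m + 1 / 2) / (m + 1) with hμ
  have hm1 : 0 < m + 1 := by linarith
  have hμ0 : 0 < μ := by
    rw [hμ]
    apply div_pos _ hm1
    have := mul_nonneg h0 hm0.le
    linarith
  have hμ1 : μ < 1 := by
    rw [hμ, div_lt_one hm1]
    have := mul_le_mul_of_nonneg_right h1 hm0.le
    linarith
  have hμl : |μ - l| ≤ 1 / m := by
    have e : μ - l = (1 / 2 - l) / (m + 1) := by
      rw [hμ]; field_simp; ring
    rw [e, abs_div, abs_of_pos hm1]
    apply div_le_div₀ zero_le_one _ hm0 (by linarith)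
    rw [abs_le]
    constructor <;> linarith
  set y : ℝ := 1 / μ - 1 with hy
  have hy0 : 0 < y := by
    rw [hy]
    have := one_lt_one_div hμ0 hμ1
    linarith
  obtain ⟨a, c, hc, hx1, hx2⟩ := exists_ratio hy0 (Nat.succ_le_succ (Nat.zero_le k))
  refine ⟨a, c, hc, ?_⟩
  rw [q_eq a (by omega)]
  set x : ℝ := S a c / (c.factorial : ℝ) with hx
  have hμy : μ = 1 / (1 + y) := by
    rw [hy]; field_simp; ring
  have hk : ((Nat.succ k : ℕ) : ℝ) = m := by push_cast; rfl
  rw [hk] at hx2
  have hx0 : 0 < x := lt_of_lt_of_le hy0 hx1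
  have h2 : |1 / (1 + x) - μ| ≤ 3 / m := by
    rw [hμy]
    have e : 1 / (1 + x) - 1 / (1 + y) = -((x - y) / ((1 + x) * (1 + y))) := by
      field_simp; ring
    rw [e, abs_neg, abs_of_nonneg (div_nonneg (by linarith) (by positivity))]
    rw [div_le_div_iff₀ (by positivity) hm0]
    have h3 : x - y ≤ 3 / m * y := by
      have : (1 + 3 / m) * y = y + 3 / m * y := by ring
      linarith
    have h4 : (x - y) * m ≤ 3 * y := by
      have := mul_le_mul_of_nonneg_right h3 hm0.le
      have e2 : 3 / m * y * m = 3 * y := by field_simp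
      linarith
    have h5 : y ≤ (1 + x) * (1 + y) := by nlinarith
    linarith
  have h3 : |1 / (1 + x) - l| ≤ |1 / (1 + x) - μ| + |μ - l| := by
    have : 1 / (1 + x) - l = (1 / (1 + x) - μ) + (μ - l) := by ring
    rw [this]
    exact abs_add_le _ _
  have h4 : 4 / m = 3 / m + 1 / m := by rw [← add_div]; norm_num
  linarith

theorem Lam_eq : Lam = Set.Icc (0 : ℝ) 1 := by
  apply Set.eq_of_subset_of_subset
  · rintro l ⟨V, hV, G, -, hq⟩
    have h01 : ∀ k, q (G k) ∈ Set.Icc (0 : ℝ) 1 := by
      intro k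
      have := hV k
      unfold q
      constructor
      · positivity
      · apply div_le_one_of_le₀ _ (Nat.cast_nonneg _)
        have : Nat.card (Aut (G k)) ≤ Nat.card (EndS (G k)) := by
          apply Nat.card_le_card_of_injective
            (fun f : Aut (G k) => (⟨(f.1 : V k → V k), fun x y h => (f.2 x y).mp h⟩ : EndS (G k)))
          intro f g h
          exact Subtype.ext (DFunLike.coe_injective (congrArg Subtype.val h))
        exact_mod_cast this
    exact isClosed_Icc.mem_of_tendsto hq (Eventually.of_forall h01)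
  · rintro l ⟨h0, h1⟩
    choose a c hc hq using exists_graph h0 h1
    refine ⟨fun k => Option (Fin (a k) ⊕ Fin (c k)), fun k => inferInstance,
      fun k => Gac (a k) (c k), ?_, ?_⟩
    · apply tendsto_atTop_mono _ tendsto_id
      intro k
      have : Nat.card (Option (Fin (a k) ⊕ Fin (c k))) = a k + c k + 1 := by
        rw [Nat.card_eq_fintype_card, Fintype.card_option, Fintype.card_sum, Fintype.card_fin,
          Fintype.card_fin]
      show k ≤ Nat.card (Option (Fin (a k) ⊕ Fin (c k)))
      rw [this]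
      have := hc k
      omega
    · rw [tendsto_iff_norm_sub_tendsto_zero]
      have hlim : Tendsto (fun k : ℕ => 4 / ((k : ℝ) + 1)) atTop (𝓝 0) := by
        have := tendsto_one_div_add_atTop_nhds_zero_nat (𝕜 := ℝ)
        have h2 := this.const_mul 4
        rw [mul_zero] at h2
        refine h2.congr ?_
        intro k
        rw [mul_one_div]
      refine squeeze_zero (fun k => norm_nonneg _) ?_ hlim
      intro k
      rw [Real.norm_eq_abs]
      exact hq k

end Pool.Agent.R801.EN
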