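import Pool.Agent.R801.EN.Defs

/-!
# Counting for the family
-/

namespace Pool.Agent.R801.EN

open Filter Topology

variable {a c : ℕ}

/-- The looped vertex and its neighbours. -/
def inA : Option (Fin a ⊕ Fin c) → Prop
  | none => True
  | some (Sum.inl _) => True
  | some (Sum.inr _) => False

/-- A complete graph on `a + c` vertices with one looped vertex joined to `a` of them. -/
def Gac (a c : ℕ) : LGraph (Option (Fin a ⊕ Fin c)) where
  adj x y := (x = none ∧ inA y) ∨ (y = none ∧ inA x) ∨ (x ≠ none ∧ y ≠ none ∧ x ≠ y)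
  symm := by
    rintro x y (h | h | ⟨h1, h2, h3⟩)
    · exact Or.inr (Or.inl h)
    · exact Or.inl h
    · exact Or.inr (Or.inr ⟨h2, h1, h3.symm⟩)

lemma adj_none {y : Option (Fin a ⊕ Fin c)} : (Gac a c).adj none y ↔ inA y := by
  show ((none : Option (Fin a ⊕ Fin c)) = none ∧ inA y) ∨ (y = none ∧ inA none) ∨
    ((none : Option (Fin a ⊕ Fin c)) ≠ none ∧ y ≠ none ∧ none ≠ y) ↔ inA y
  constructor
  · rintro (h | ⟨h, -⟩ | ⟨h, -⟩)
    · exact h.2
    · rw [h]; trivial
    · exact absurd rfl h
  · intro h
    exact Or.inl ⟨rfl, h⟩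

lemma adj_self {y : Option (Fin a ⊕ Fin c)} : (Gac a c).adj y y ↔ y = none := by
  show (y = none ∧ inA y) ∨ (y = none ∧ inA y) ∨ (y ≠ none ∧ y ≠ none ∧ y ≠ y) ↔ y = none
  constructor
  · rintro (h | h | ⟨-, -, h⟩)
    · exact h.1
    · exact h.1
    · exact absurd rfl h
  · rintro rfl
    exact Or.inl ⟨rfl, trivial⟩

lemma adj_some {x y : Fin a ⊕ Fin c} : (Gac a c).adj (some x) (some y) ↔ x ≠ y := by
  show (some x = none ∧ inA (some y)) ∨ (some y = none ∧ inA (some x)) ∨
    (some x ≠ none ∧ some y ≠ none ∧ some x ≠ some y) ↔ x ≠ y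
  constructor
  · rintro (⟨h, -⟩ | ⟨h, -⟩ | ⟨-, -, h⟩)
    · cases h
    · cases h
    · intro e
      exact h (by rw [e])
  · intro h
    exact Or.inr (Or.inr ⟨by simp, by simp, fun e => h (Option.some.inj e)⟩)

/-- The automorphisms coming from a pair of permutations. -/
def autMap (p : Equiv.Perm (Fin a) × Equiv.Perm (Fin c)) : Equiv.Perm (Option (Fin a ⊕ Fin c)) :=
  Equiv.optionCongr (Equiv.sumCongr p.1 p.2)

lemma inA_autMap (p : Equiv.Perm (Fin a) × Equiv.Perm (Fin c)) (x : Option (Fin a ⊕ Fin c)) :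
    inA (autMap p x) ↔ inA x := by
  rcases x with _ | x | x
  · exact Iff.rfl
  · exact Iff.rfl
  · exact Iff.rfl

lemma autMap_none (p : Equiv.Perm (Fin a) × Equiv.Perm (Fin c))
    (x : Option (Fin a ⊕ Fin c)) : autMap p x = none ↔ x = none := by
  constructor
  · intro h
    have : autMap p x = autMap p none := h
    exact (autMap p).injective this
  · rintro rfl
    rfl

lemma autMap_mem (p : Equiv.Perm (Fin a) × Equiv.Perm (Fin c)) : autMap p ∈ Aut (Gac a c) := by
  intro x y
  show (x = none ∧ inA y) ∨ (y = none ∧ inA x) ∨ (x ≠ none ∧ y ≠ none ∧ x ≠ y) ↔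
    (autMap p x = none ∧ inA (autMap p y)) ∨ (autMap p y = none ∧ inA (autMap p x)) ∨
    (autMap p x ≠ none ∧ autMap p y ≠ none ∧ autMap p x ≠ autMap p y)
  rw [inA_autMap, inA_autMap]
  simp only [ne_eq, autMap_none, (autMap p).injective.eq_iff]

lemma autMap_inj : Function.Injective (autMap : _ → Equiv.Perm (Option (Fin a ⊕ Fin c))) := by
  rintro ⟨s, t⟩ ⟨s', t'⟩ h
  have h1 : ∀ x, autMap (s, t) (some x) = autMap (s', t') (some x) := fun x => by rw [h]
  have hs : s = s' := by
    ext x
    have h2 := h1 (Sum.inl x)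
    have h3 : (some (Sum.inl (s x)) : Option (Fin a ⊕ Fin c)) = some (Sum.inl (s' x)) := h2
    simp only [Option.some.injEq, Sum.inl.injEq] at h3
    rw [h3]
  have ht : t = t' := by
    ext x
    have h2 := h1 (Sum.inr x)
    have h3 : (some (Sum.inr (t x)) : Option (Fin a ⊕ Fin c)) = some (Sum.inr (t' x)) := h2
    simp only [Option.some.injEq, Sum.inr.injEq] at h3
    rw [h3]
  rw [hs, ht]

lemma exists_of_aut {f : Equiv.Perm (Option (Fin a ⊕ Fin c))} (h0 : f none = none)
    (hA : ∀ x, inA x → inA (f x)) : ∃ p, autMap p = f := by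
  have h1 : (Equiv.removeNone f).optionCongr = f := by
    rw [map_equiv_removeNone, h0, Equiv.swap_self]
    rfl
  set g := Equiv.removeNone f with hg
  have hgf : ∀ x, f (some x) = some (g x) := by
    intro x
    rw [← h1]
    rfl
  have hmaps : Set.MapsTo g (Set.range (Sum.inl : Fin a → Fin a ⊕ Fin c))
      (Set.range (Sum.inl : Fin a → Fin a ⊕ Fin c)) := by
    rintro _ ⟨x, rfl⟩
    have h2 : inA (f (some (Sum.inl x))) := hA _ trivial
    rw [hgf] at h2
    rcases h3 : g (Sum.inl x) with y | y
    · exact ⟨y, rfl⟩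
    · rw [h3] at h2
      exact absurd h2 (by intro h; exact h)
  obtain ⟨p, hp⟩ := Equiv.Perm.mem_sumCongrHom_range_of_perm_mapsTo_inl hmaps
  refine ⟨p, ?_⟩
  rw [← h1, ← hp]
  rfl

lemma end_none {f : Option (Fin a ⊕ Fin c) → Option (Fin a ⊕ Fin c)}
    (hf : f ∈ EndS (Gac a c)) : f none = none := by
  have := hf none none (adj_self.mpr rfl)
  exact adj_self.mp this

lemma end_inA {f : Option (Fin a ⊕ Fin c) → Option (Fin a ⊕ Fin c)}
    (hf : f ∈ EndS (Gac a c)) (x : Option (Fin a ⊕ Fin c)) (hx : inA x) : inA (f x) := by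
  have := hf none x (adj_none.mpr hx)
  rw [end_none hf] at this
  exact adj_none.mp this

lemma aut_end {f : Equiv.Perm (Option (Fin a ⊕ Fin c))} (hf : f ∈ Aut (Gac a c)) :
    (f : Option (Fin a ⊕ Fin c) → Option (Fin a ⊕ Fin c)) ∈ EndS (Gac a c) :=
  fun x y h => (hf x y).mp h

lemma card_aut (a c : ℕ) : Nat.card (Aut (Gac a c)) = a.factorial * c.factorial := by
  have hb : Function.Bijective
      (fun p : Equiv.Perm (Fin a) × Equiv.Perm (Fin c) =>
        (⟨autMap p, autMap_mem p⟩ : Aut (Gac a c))) := by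
    constructor
    · intro p p' h
      exact autMap_inj (congrArg Subtype.val h)
    · rintro ⟨f, hf⟩
      obtain ⟨p, hp⟩ := exists_of_aut (end_none (aut_end hf)) (end_inA (aut_end hf))
      exact ⟨p, Subtype.ext hp⟩
  rw [← Nat.card_congr (Equiv.ofBijective _ hb), Nat.card_prod, Nat.card_perm, Nat.card_perm,
    Nat.card_eq_fintype_card, Nat.card_eq_fintype_card, Fintype.card_fin, Fintype.card_fin]

/-- The first class of endomorphisms. -/
def E1 (a c : ℕ) : Set (Option (Fin a ⊕ Fin c) → Option (Fin a ⊕ Fin c)) :=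
  {f | f ∈ EndS (Gac a c) ∧ ∀ x, f (some x) ≠ none}

/-- The second class of endomorphisms. -/
def E2 (a c : ℕ) : Set (Option (Fin a ⊕ Fin c) → Option (Fin a ⊕ Fin c)) :=
  {f | f ∈ EndS (Gac a c) ∧ ∃ x, f (some x) = none}

lemma card_E1 (a c : ℕ) : Nat.card (E1 a c) = a.factorial * c.factorial := by
  rw [← card_aut]
  symm
  have hmem : ∀ f : Aut (Gac a c), ((f : Equiv.Perm (Option (Fin a ⊕ Fin c))) :
      Option (Fin a ⊕ Fin c) → Option (Fin a ⊕ Fin c)) ∈ E1 a c := by
    rintro ⟨f, hf⟩
    refine ⟨aut_end hf, ?_⟩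
    intro x h
    have h2 : f (some x) = f none := by
      rw [end_none (aut_end hf)]; exact h
    have := f.injective h2
    cases this
  have hb : Function.Bijective (fun f : Aut (Gac a c) => (⟨_, hmem f⟩ : E1 a c)) := by
    constructor
    · intro f g h
      have h1 := congrArg Subtype.val h
      exact Subtype.ext (DFunLike.coe_injective h1)
    · rintro ⟨f, hf, hx⟩
      have hinj : Function.Injective f := by
        intro x y h
        rcases x with _ | x <;> rcases y with _ | y
        · rfl
        · rw [end_none hf] at h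
          exact absurd h.symm (hx y)
        · rw [end_none hf] at h
          exact absurd h (hx x)
        · by_contra hne
          have h1 : x ≠ y := fun e => hne (by rw [e])
          have h2 := hf _ _ (adj_some.mpr h1)
          rw [h] at h2
          exact hx y (adj_self.mp h2)
      have hbij : Function.Bijective f := Finite.injective_iff_bijective.mp hinj
      obtain ⟨p, hp⟩ := exists_of_aut (f := Equiv.ofBijective f hbij) (end_none hf)
        (end_inA hf)
      refine ⟨⟨autMap p, autMap_mem p⟩, ?_⟩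
      apply Subtype.ext
      show (autMap p : Option (Fin a ⊕ Fin c) → Option (Fin a ⊕ Fin c)) = f
      rw [hp]
      rfl
  exact Nat.card_congr (Equiv.ofBijective _ hb)

/-- Injections defined on a subset. -/
def PI (a c : ℕ) : Set ((Fin a ⊕ Fin c) → Option (Fin a)) :=
  {g | ∀ x y, g x = g y → g x ≠ none → x = y}

/-- The map attached to an injection defined on a subset. -/
def toEnd (g : (Fin a ⊕ Fin c) → Option (Fin a)) :
    Option (Fin a ⊕ Fin c) → Option (Fin a ⊕ Fin c)
  | none => none
  | some x => (g x).map Sum.inl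

lemma inA_toEnd (g : (Fin a ⊕ Fin c) → Option (Fin a)) (x : Option (Fin a ⊕ Fin c)) :
    inA (toEnd g x) := by
  rcases x with _ | x
  · trivial
  · show inA ((g x).map Sum.inl)
    rcases g x with _ | y
    · trivial
    · trivial

lemma toEnd_mem (hc : 1 ≤ c) {g : (Fin a ⊕ Fin c) → Option (Fin a)} (hg : g ∈ PI a c) :
    toEnd g ∈ E2 a c := by
  constructor
  · intro x y h
    by_cases hx : toEnd g x = none
    · rw [hx]; exact adj_none.mpr (inA_toEnd g y)
    by_cases hy : toEnd g y = none
    · rw [hy]; exact (Gac a c).symm _ _ (adj_none.mpr (inA_toEnd g x))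
    rcases x with _ | x
    · exact absurd rfl hx
    rcases y with _ | y
    · exact absurd rfl hy
    have hxy : x ≠ y := adj_some.mp h
    have hgx : g x ≠ none := by
      intro h0
      apply hx
      show (g x).map Sum.inl = none
      rw [h0]; rfl
    refine Or.inr (Or.inr ⟨hx, hy, ?_⟩)
    intro e
    apply hxy
    apply hg x y _ hgx
    have e' : (g x).map (Sum.inl : Fin a → Fin a ⊕ Fin c) = (g y).map Sum.inl := e
    exact Option.map_injective Sum.inl_injective e'
  · by_contra hcon
    push Not at hcon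
    have h1 : ∀ x, g x ≠ none := by
      intro x h0
      apply hcon x
      show (g x).map Sum.inl = none
      rw [h0]; rfl
    have h2 : ∀ x, ∃ y, g x = some y := fun x => Option.ne_none_iff_exists'.mp (h1 x)
    choose k hk using h2
    have hkinj : Function.Injective k := by
      intro x y e
      exact hg x y (by rw [hk, hk, e]) (h1 x)
    have := Fintype.card_le_of_injective k hkinj
    rw [Fintype.card_sum, Fintype.card_fin, Fintype.card_fin] at this
    omega

lemma toEnd_inj : Function.Injective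
    (toEnd : ((Fin a ⊕ Fin c) → Option (Fin a)) → _) := by
  intro g g' h
  funext x
  have h1 : toEnd g (some x) = toEnd g' (some x) := by rw [h]
  exact Option.map_injective Sum.inl_injective h1

lemma toEnd_surj {f : Option (Fin a ⊕ Fin c) → Option (Fin a ⊕ Fin c)} (hf : f ∈ E2 a c) :
    ∃ g ∈ PI a c, toEnd g = f := by
  obtain ⟨hE, x₀, hx₀⟩ := hf
  have hall : ∀ y, inA (f (some y)) := by
    intro y
    by_cases hy : y = x₀
    · rw [hy, hx₀]; trivial
    · have h1 := hE _ _ (adj_some.mpr (Ne.symm hy))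
      rw [hx₀] at h1
      exact adj_none.mp h1
  have hex : ∀ y, ∃ z : Option (Fin a), z.map Sum.inl = f (some y) := by
    intro y
    have h1 := hall y
    rcases h2 : f (some y) with _ | z | z
    · exact ⟨none, rfl⟩
    · exact ⟨some z, rfl⟩
    · rw [h2] at h1
      exact absurd h1 (by intro h; exact h)
  choose g hg using hex
  refine ⟨g, ?_, ?_⟩
  · intro x y e hx
    by_contra hne
    have h1 := hE _ _ (adj_some.mpr hne)
    rw [← hg x, ← hg y, ← e] at h1
    have h2 := adj_self.mp h1
    rw [Option.map_eq_none_iff] at h2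
    exact hx h2
  · funext x
    rcases x with _ | x
    · exact (end_none hE).symm
    · exact hg x

lemma card_E2 (a : ℕ) {c : ℕ} (hc : 1 ≤ c) : Nat.card (E2 a c) = Nat.card (PI a c) := by
  symm
  have hb : Function.Bijective (fun g : PI a c => (⟨toEnd g.1, toEnd_mem hc g.2⟩ : E2 a c)) := by
    constructor
    · intro g g' h
      exact Subtype.ext (toEnd_inj (congrArg Subtype.val h))
    · rintro ⟨f, hf⟩
      obtain ⟨g, hg, h⟩ := toEnd_surj hf
      exact ⟨⟨g, hg⟩, Subtype.ext h⟩
  exact Nat.card_congr (Equiv.ofBijective _ hb)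

/-- Function attached to a subset with an embedding. -/
noncomputable def ofSub (p : Σ S : Finset (Fin a ⊕ Fin c), (S ↪ Fin a)) :
    (Fin a ⊕ Fin c) → Option (Fin a) :=
  fun x => if h : x ∈ p.1 then some (p.2 ⟨x, h⟩) else none

lemma ofSub_ne {S : Finset (Fin a ⊕ Fin c)} {e : S ↪ Fin a} {x : Fin a ⊕ Fin c} :
    ofSub ⟨S, e⟩ x ≠ none ↔ x ∈ S := by
  unfold ofSub
  by_cases h : x ∈ S
  · simp [h]
  · simp [h]

lemma ofSub_mem (p : Σ S : Finset (Fin a ⊕ Fin c), (S ↪ Fin a)) : ofSub p ∈ PI a c := by
  obtain ⟨S, e⟩ := p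
  intro x y h hx
  have hxS : x ∈ S := ofSub_ne.mp hx
  have hyS : y ∈ S := ofSub_ne.mp (by rw [← h]; exact hx)
  unfold ofSub at h
  simp only [hxS, hyS, dite_true, Option.some.injEq] at h
  exact congrArg Subtype.val (e.injective h)

lemma card_PI (a c : ℕ) :
    Nat.card (PI a c) = ∑ k ∈ Finset.range (a + c + 1), (a + c).choose k * a.descFactorial k := by
  classical
  have hb : Function.Bijective (fun p : Σ S : Finset (Fin a ⊕ Fin c), (S ↪ Fin a) =>
      (⟨ofSub p, ofSub_mem p⟩ : PI a c)) := by
    constructor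
    · rintro ⟨S, e⟩ ⟨S', e'⟩ h
      have h1 : ofSub ⟨S, e⟩ = ofSub ⟨S', e'⟩ := congrArg Subtype.val h
      have hS : S = S' := by
        ext x
        rw [← ofSub_ne (e := e), ← ofSub_ne (e := e'), h1]
      subst hS
      congr 1
      ext ⟨x, hx⟩
      have h2 := congrFun h1 x
      unfold ofSub at h2
      simp only [hx, dite_true, Option.some.injEq] at h2
      rw [h2]
    · rintro ⟨g, hg⟩
      refine ⟨⟨Finset.univ.filter (fun x => g x ≠ none),
        ⟨fun x => (g x.1).get (Option.ne_none_iff_isSome.mp (Finset.mem_filter.mp x.2).2),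
          ?_⟩⟩, ?_⟩
      · rintro ⟨x, hx⟩ ⟨y, hy⟩ h
        apply Subtype.ext
        apply hg x y _ (Finset.mem_filter.mp hx).2
        have h' : (g x).get (Option.ne_none_iff_isSome.mp (Finset.mem_filter.mp hx).2) =
          (g y).get (Option.ne_none_iff_isSome.mp (Finset.mem_filter.mp hy).2) := h
        rw [← Option.some_get (Option.ne_none_iff_isSome.mp (Finset.mem_filter.mp hx).2), h',
          Option.some_get]
      · apply Subtype.ext
        funext x
        show ofSub _ x = g x
        unfold ofSub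
        by_cases h : g x = none
        · simp [h]
        · have : x ∈ Finset.univ.filter (fun x => g x ≠ none) := by simp [h]
          simp only [this, dite_true]
          show some ((g x).get _) = g x
          rw [Option.some_get]
  rw [← Nat.card_congr (Equiv.ofBijective _ hb), Nat.card_eq_fintype_card, Fintype.card_sigma]
  have h1 : ∀ S : Finset (Fin a ⊕ Fin c), Fintype.card (S ↪ Fin a) =
      a.descFactorial S.card := by
    intro S
    rw [Fintype.card_embedding_eq, Fintype.card_fin, Fintype.card_coe]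
  simp only [h1]
  have h2 := Finset.sum_powerset_apply_card (fun k => a.descFactorial k)
    (x := (Finset.univ : Finset (Fin a ⊕ Fin c)))
  rw [Finset.powerset_univ, Finset.card_univ, Fintype.card_sum, Fintype.card_fin,
    Fintype.card_fin] at h2
  rw [h2]
  simp only [smul_eq_mul]

lemma card_End (a : ℕ) {c : ℕ} (hc : 1 ≤ c) :
    Nat.card (EndS (Gac a c)) = a.factorial * c.factorial +
      ∑ k ∈ Finset.range (a + c + 1), (a + c).choose k * a.descFactorial k := by
  rw [← card_E1, ← card_PI, ← card_E2 a hc]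
  have hu : EndS (Gac a c) = E1 a c ∪ E2 a c := by
    ext f
    constructor
    · intro hf
      by_cases h : ∃ x, f (some x) = none
      · exact Or.inr ⟨hf, h⟩
      · push Not at h
        exact Or.inl ⟨hf, h⟩
    · rintro (h | h)
      · exact h.1
      · exact h.1
  have hd : Disjoint (E1 a c) (E2 a c) := by
    rw [Set.disjoint_left]
    rintro f ⟨-, h1⟩ ⟨-, x, hx⟩
    exact h1 x hx
  rw [Nat.card_coe_set_eq, Nat.card_coe_set_eq, Nat.card_coe_set_eq, hu,
    Set.ncard_union_eq hd (Set.toFinite _) (Set.toFinite _)]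

end Pool.Agent.R801.EN
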