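import Mathlib

/-!
# Automorphism to strict endomorphism ratios (definitions for `MP_e2735d_co`)
-/

namespace Pool.Agent.R801.EN

open Filter Topology

/-- An undirected graph without multiple edges; loops are permitted. -/
structure LGraph (V : Type) where
  /-- adjacency; `adj x x` says that `x` carries a loop -/
  adj : V → V → Prop
  symm : ∀ x y, adj x y → adj y x

variable {V : Type}

/-- Strict endomorphisms. -/
def EndS (G : LGraph V) : Set (V → V) := {f | ∀ x y, G.adj x y → G.adj (f x) (f y)}

/-- Automorphisms. -/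
def Aut (G : LGraph V) : Set (Equiv.Perm V) := {f | ∀ x y, G.adj x y ↔ G.adj (f x) (f y)}

/-- The quotient `q(G) = |Aut(G)| / |End_s(G)|`. -/
noncomputable def q (G : LGraph V) : ℝ := (Nat.card (Aut G) : ℝ) / (Nat.card (EndS G) : ℝ)

/-- The limiting set. -/
def Lam : Set ℝ :=
  {l | ∃ (V : ℕ → Type) (_ : ∀ k, Finite (V k)) (G : ∀ k, LGraph (V k)),
    Tendsto (fun k => Nat.card (V k)) atTop atTop ∧ Tendsto (fun k => q (G k)) atTop (𝓝 l)}

end Pool.Agent.R801.EN
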